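import Pool.Agent.R745.CB.Stms

/-!
# One stage of the construction of the canal
-/

set_option autoImplicit false

namespace Pool.Agent.R515.CB.C

open Set Topology Metric Filter
open Pool.Agent.R745.CB

/-- the shrinking factor -/
noncomputable def lam (k d η t : ℝ) : ℝ := max η (1 - max 0 (t - k) / d)

theorem lam_cont (k d η : ℝ) : Continuous (lam k d η) := by
  unfold lam
  fun_prop

theorem lam_pos {k d η : ℝ} (hη : 0 < η) (t : ℝ) : 0 < lam k d η t :=
  hη.trans_le (le_max_left _ _)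

theorem lam_le {k d η : ℝ} (hη : η ≤ 1) (hd : 0 < d) (t : ℝ) : lam k d η t ≤ 1 := by
  refine max_le hη ?_
  have : 0 ≤ max 0 (t - k) / d := div_nonneg (le_max_left _ _) hd.le
  linarith

theorem lam_one {k d η : ℝ} (hη : η ≤ 1) {t : ℝ} (ht : t ≤ k) : lam k d η t = 1 := by
  unfold lam
  rw [max_eq_left (by linarith : t - k ≤ 0), zero_div, sub_zero, max_eq_right hη]

theorem lam_eta {k d η : ℝ} (hη : 0 < η) (hd : 0 < d) {t : ℝ} (ht : k + d ≤ t) :
    lam k d η t = η := by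
  unfold lam
  refine max_eq_left ?_
  rw [max_eq_right (by linarith : 0 ≤ t - k)]
  have : 1 ≤ (t - k) / d := by
    rw [le_div_iff₀ hd]
    linarith
  linarith

variable {E : Type} [NormedAddCommGroup E] [NormedSpace ℝ E]

/-- the shrinking homeomorphism -/
noncomputable def shr (k d η : ℝ) (hη : 0 < η) : (E × ℝ) ≃ₜ (E × ℝ) where
  toFun z := (lam k d η z.2 • z.1, z.2)
  invFun z := ((lam k d η z.2)⁻¹ • z.1, z.2)
  left_inv z := by
    have := (lam_pos (k := k) (d := d) hη z.2).ne'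
    simp only [smul_smul, inv_mul_cancel₀ this, one_smul]
  right_inv z := by
    have := (lam_pos (k := k) (d := d) hη z.2).ne'
    simp only [smul_smul, mul_inv_cancel₀ this, one_smul]
  continuous_toFun :=
    (((lam_cont k d η).comp continuous_snd).smul continuous_fst).prodMk continuous_snd
  continuous_invFun :=
    ((((lam_cont k d η).comp continuous_snd).inv₀
      fun z => (lam_pos (k := k) (d := d) hη z.2).ne').smul continuous_fst).prodMk continuous_snd

theorem shr_apply (k d η : ℝ) (hη : 0 < η) (x : E) (t : ℝ) :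
    shr k d η hη (x, t) = (lam k d η t • x, t) := rfl

theorem stage (hA : StmPush) (hB : StmCompl) : StmStage := by
  intro E _ _ _ _ X R hX hXR hR Ψ k ε ε' q hk hε hε' hball
  have : CompleteSpace E := FiniteDimensional.complete ℝ E
  have hBc : IsCompact (closedBall (0 : E) R) := isCompact_closedBall 0 R
  -- step 1
  obtain ⟨d, hd0, hd1, hd⟩ : ∃ d : ℝ, 0 < d ∧ d < 1 ∧ ∀ t ∈ Icc k (k + d),
      ∀ x ∈ closedBall (0 : E) R, ∀ x' ∈ closedBall (0 : E) R,
        dist (Ψ (x, t)) (Ψ (x', t)) < ε := by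
    have h1 : ∀ᶠ t in 𝓝 k, ∀ y ∈ closedBall (0 : E) R ×ˢ closedBall (0 : E) R,
        dist (Ψ (y.1, t)) (Ψ (y.2, t)) < ε := by
      refine (hBc.prod hBc).eventually_forall_of_forall_eventually
        (P := fun t y => dist (Ψ (y.1, t)) (Ψ (y.2, t)) < ε) ?_
      rintro y ⟨hy1, hy2⟩
      have hc : Continuous fun z : ℝ × (E × E) => dist (Ψ (z.2.1, z.1)) (Ψ (z.2.2, z.1)) := by
        fun_prop
      exact (hc.tendsto (k, y)).eventually_lt_const (hball _ hy1 _ hy2)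
    obtain ⟨δ, hδ, h2⟩ := Metric.eventually_nhds_iff.1 h1
    refine ⟨min (δ / 2) (1 / 2), by positivity, by
      have := min_le_right (δ / 2) (1 / 2 : ℝ)
      linarith, fun t ht x hx x' hx' => ?_⟩
    refine h2 (y := t) ?_ (x, x') ⟨hx, hx'⟩
    rw [Real.dist_eq, abs_of_nonneg (by linarith [ht.1])]
    have := min_le_left (δ / 2) (1 / 2 : ℝ)
    linarith [ht.2]
  -- step 2
  set F : Set (E × ℝ) := X ×ˢ Icc 0 k ∪ closedBall (0 : E) R ×ˢ Icc k (k + d) with hF
  have hFc : IsCompact F := (hX.prod isCompact_Icc).union (hBc.prod isCompact_Icc)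
  have hFp : IsPreconnected Fᶜ := by
    obtain ⟨v, hv⟩ := NormedSpace.exists_lt_norm ℝ E R
    refine hB E X (closedBall 0 R) 0 k (k + d) hXR ⟨v, ?_⟩ hk (by linarith)
    rw [mem_closedBall_zero_iff, not_le]
    exact hv
  have hUo : IsOpen (Ψ '' F)ᶜ := (hFc.image Ψ.continuous).isClosed.isOpen_compl
  have hUp : IsPreconnected (Ψ '' F)ᶜ := by
    rw [← image_compl_eq Ψ.bijective]
    exact hFp.image _ Ψ.continuous.continuousOn
  -- step 3
  obtain ⟨φ, hφ1, hφ2⟩ : ∃ φ : (E × ℝ) ≃ₜ (E × ℝ), (∀ z ∈ F, φ (Ψ z) = Ψ z) ∧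
      (q ∈ Ψ '' F ∨ φ (Ψ (0, k + 1)) = q) := by
    by_cases hq : q ∈ Ψ '' F
    · exact ⟨Homeomorph.refl _, fun z _ => rfl, Or.inl hq⟩
    · have hp : Ψ ((0 : E), k + 1) ∈ (Ψ '' F)ᶜ := by
        rintro ⟨z, hz, hz2⟩
        have h3 : z = (0, k + 1) := Ψ.injective hz2
        rw [h3] at hz
        rcases hz with hz | hz
        · have := hz.2.2
          simp only at this
          linarith
        · have := hz.2.2
          simp only at this
          linarith
      obtain ⟨φ, h1, h2⟩ := hA (E × ℝ) _ hUo hUp _ hp q hq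
      exact ⟨φ, fun z hz => h2 _ fun h => h ⟨z, hz, rfl⟩, Or.inr h1⟩
  -- step 4
  obtain ⟨η, hη0, hη1, hη⟩ : ∃ η : ℝ, 0 < η ∧ η ≤ 1 ∧ ∀ x ∈ closedBall (0 : E) R,
      ∀ t ∈ Icc k (k + 1), dist (φ (Ψ (η • x, t))) (φ (Ψ (0, t))) < min ε ε' / 2 := by
    have h1 : ∀ᶠ s : ℝ in 𝓝 0, ∀ y ∈ closedBall (0 : E) R ×ˢ Icc k (k + 1),
        dist (φ (Ψ (s • y.1, y.2))) (φ (Ψ (0, y.2))) < min ε ε' / 2 := by
      refine (hBc.prod isCompact_Icc).eventually_forall_of_forall_eventually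
        (P := fun (s : ℝ) y => dist (φ (Ψ (s • y.1, y.2))) (φ (Ψ (0, y.2))) < min ε ε' / 2) ?_
      rintro y ⟨hy1, hy2⟩
      have hc : Continuous fun z : ℝ × (E × ℝ) =>
          dist (φ (Ψ (z.1 • z.2.1, z.2.2))) (φ (Ψ (0, z.2.2))) := by
        fun_prop
      refine (hc.tendsto (0, y)).eventually_lt_const ?_
      simp only [zero_smul, dist_self]
      positivity
    obtain ⟨δ, hδ, h2⟩ := Metric.eventually_nhds_iff.1 h1
    refine ⟨min (δ / 2) 1, by positivity, min_le_right _ _, fun x hx t ht => ?_⟩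
    refine h2 (y := min (δ / 2) 1) ?_ (x, t) ⟨hx, ht⟩
    rw [Real.dist_eq, sub_zero, abs_of_nonneg (by positivity)]
    have := min_le_left (δ / 2) (1 : ℝ)
    linarith
  -- step 5
  have hin : ∀ x ∈ closedBall (0 : E) R, ∀ t, lam k d η t • x ∈ closedBall (0 : E) R := by
    intro x hx t
    rw [mem_closedBall_zero_iff] at hx ⊢
    rw [norm_smul, Real.norm_eq_abs, abs_of_pos (lam_pos hη0 t)]
    have := lam_le (k := k) hη1 hd0 t
    nlinarith [norm_nonneg x]
  have hlow : ∀ x ∈ closedBall (0 : E) R, ∀ t ∈ Icc k (k + d),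
      φ (Ψ (lam k d η t • x, t)) = Ψ (lam k d η t • x, t) := fun x hx t ht =>
    hφ1 _ (Or.inr ⟨hin x hx t, ht⟩)
  have hhigh : ∀ t ∈ Icc k (k + 1), k + d ≤ t → ∀ x ∈ closedBall (0 : E) R,
      ∀ x' ∈ closedBall (0 : E) R,
        dist (φ (Ψ (lam k d η t • x, t))) (φ (Ψ (lam k d η t • x', t))) < min ε ε' := by
    intro t ht hdt x hx x' hx'
    rw [lam_eta hη0 hd0 hdt]
    have h1 := hη x hx t ht
    have h2 := hη x' hx' t ht
    have h3 := dist_triangle_right (φ (Ψ (η • x, t))) (φ (Ψ (η • x', t))) (φ (Ψ (0, t)))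
    linarith
  refine ⟨((shr k d η hη0).trans Ψ).trans φ, ?_, ?_, ?_, ?_⟩
  · intro x hx t ht
    show φ (Ψ (shr k d η hη0 (x, t))) = Ψ (x, t)
    rw [shr_apply, lam_one hη1 ht.2, one_smul]
    exact hφ1 _ (Or.inl ⟨hx, ht⟩)
  · intro t ht x hx x' hx'
    show dist (φ (Ψ (shr k d η hη0 (x, t)))) (φ (Ψ (shr k d η hη0 (x', t)))) < ε
    rw [shr_apply, shr_apply]
    rcases le_total t (k + d) with h | h
    · rw [hlow x hx t ⟨ht.1, h⟩, hlow x' hx' t ⟨ht.1, h⟩]
      exact hd t ⟨ht.1, h⟩ _ (hin x hx t) _ (hin x' hx' t)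
    · exact (hhigh t ht h x hx x' hx').trans_le (min_le_left _ _)
  · intro x hx x' hx'
    show dist (φ (Ψ (shr k d η hη0 (x, k + 1)))) (φ (Ψ (shr k d η hη0 (x', k + 1)))) < ε'
    rw [shr_apply, shr_apply]
    exact (hhigh (k + 1) ⟨by linarith, le_rfl⟩ (by linarith) x hx x' hx').trans_le
      (min_le_right _ _)
  · rcases hφ2 with ⟨z, hz, hzq⟩ | hq
    · rcases hz with hz | hz
      · exact Or.inl ⟨z.1, hz.1, z.2, hz.2, hzq⟩
      · refine Or.inr ⟨z.2, ⟨hz.2.1, by linarith [hz.2.2]⟩, fun x hx => ?_⟩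
        show dist (φ (Ψ (shr k d η hη0 (x, z.2)))) q < ε
        rw [shr_apply, hlow x hx z.2 hz.2, ← hzq]
        exact hd z.2 hz.2 _ (hin x hx _) z.1 hz.1
    · refine Or.inr ⟨k + 1, ⟨by linarith, le_rfl⟩, fun x hx => ?_⟩
      show dist (φ (Ψ (shr k d η hη0 (x, k + 1)))) q < ε
      rw [shr_apply, lam_eta hη0 hd0 (by linarith), ← hq]
      refine (hη x hx (k + 1) ⟨by linarith, le_rfl⟩).trans_le ?_
      have := min_le_left ε ε'
      linarith

end Pool.Agent.R515.CB.C
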