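import Pool.Agent.R745.CB.Stms

/-!
# The dense canal
-/

set_option autoImplicit false

namespace Pool.Agent.R515.CB.D

open Set Topology Metric Filter
open Pool.Agent.R745.CB

theorem canal (hC : StmStage) : StmCanal := by
  intro E _ _ _ _ X hX
  have : ProperSpace E := FiniteDimensional.proper_real E
  obtain ⟨R, hR, hXR⟩ := hX.isBounded.subset_closedBall_lt 0 0
  set eps : ℕ → ℝ := fun k => (2 * R + 1) / (k + 1) with heps
  have heps0 : ∀ k, 0 < eps k := fun k => by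
    simp only [heps]
    positivity
  have hepsm : ∀ j k, j ≤ k → eps k ≤ eps j := by
    intro j k hjk
    simp only [heps]
    have : (j : ℝ) ≤ k := by exact_mod_cast hjk
    exact div_le_div_of_nonneg_left (by linarith) (by positivity) (by linarith)
  set q : ℕ → E × ℝ := fun k => TopologicalSpace.denseSeq (E × ℝ) k.unpair.1 with hq
  set P : ℕ → ((E × ℝ) ≃ₜ (E × ℝ)) → Prop := fun k Ψ => ∀ x ∈ closedBall (0 : E) R,
    ∀ x' ∈ closedBall (0 : E) R, dist (Ψ (x, (k : ℝ))) (Ψ (x', (k : ℝ))) < eps k with hP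
  set Rel : ℕ → ((E × ℝ) ≃ₜ (E × ℝ)) → ((E × ℝ) ≃ₜ (E × ℝ)) → Prop := fun k Ψ Ψ' =>
    (∀ x ∈ X, ∀ t ∈ Icc (0 : ℝ) k, Ψ' (x, t) = Ψ (x, t)) ∧
    (∀ t ∈ Icc (k : ℝ) (k + 1), ∀ x ∈ closedBall (0 : E) R, ∀ x' ∈ closedBall (0 : E) R,
      dist (Ψ' (x, t)) (Ψ' (x', t)) < eps k) ∧
    ((∃ x ∈ X, ∃ t ∈ Icc (0 : ℝ) k, Ψ (x, t) = q k) ∨
      ∃ t ∈ Icc (k : ℝ) (k + 1), ∀ x ∈ closedBall (0 : E) R, dist (Ψ' (x, t)) (q k) < eps k)
    with hRel
  have step : ∀ (k : ℕ) (Ψ : {Ψ : (E × ℝ) ≃ₜ (E × ℝ) // P k Ψ}),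
      ∃ Ψ' : {Ψ : (E × ℝ) ≃ₜ (E × ℝ) // P (k + 1) Ψ}, Rel k Ψ.1 Ψ'.1 := by
    intro k Ψ
    obtain ⟨Ψ', h1, h2, h3, h4⟩ := hC E X R hX hXR hR Ψ.1 k (eps k) (eps (k + 1)) (q k)
      (Nat.cast_nonneg k) (heps0 k) (heps0 (k + 1)) Ψ.2
    refine ⟨⟨Ψ', ?_⟩, h1, h2, h4⟩
    intro x hx x' hx'
    push_cast
    exact h3 x hx x' hx'
  choose next hnext using step
  have hP0 : P 0 (Homeomorph.refl (E × ℝ)) := by
    intro x hx x' hx'
    rw [mem_closedBall_zero_iff] at hx hx'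
    have h1 : dist ((Homeomorph.refl (E × ℝ)) (x, ((0 : ℕ) : ℝ)))
        ((Homeomorph.refl (E × ℝ)) (x', ((0 : ℕ) : ℝ))) = dist x x' := by
      simp [Prod.dist_eq]
    rw [h1, dist_eq_norm]
    have h2 := norm_sub_le x x'
    simp only [heps, Nat.cast_zero, zero_add, div_one]
    linarith
  let s : ∀ k, {Ψ : (E × ℝ) ≃ₜ (E × ℝ) // P k Ψ} := fun k =>
    Nat.rec ⟨Homeomorph.refl _, hP0⟩ (fun k Ψ => next k Ψ) k
  have hs : ∀ k, Rel k (s k).1 (s (k + 1)).1 := fun k => hnext k (s k)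
  have hst : ∀ k l : ℕ, k ≤ l → ∀ x ∈ X, ∀ t ∈ Icc (0 : ℝ) k, (s l).1 (x, t) = (s k).1 (x, t) := by
    intro k l hkl
    induction l, hkl using Nat.le_induction with
    | base => intro x _ t _; rfl
    | succ l hl ih =>
      intro x hx t ht
      rw [(hs l).1 x hx t ⟨ht.1, ht.2.trans (by exact_mod_cast hl)⟩, ih x hx t ht]
  have hΦ : ∀ (k : ℕ), ∀ x ∈ X, ∀ t ∈ Icc (0 : ℝ) k, (s ⌈t⌉₊).1 (x, t) = (s k).1 (x, t) := by
    intro k x hx t ht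
    exact (hst ⌈t⌉₊ k (Nat.ceil_le.2 ht.2) x hx t ⟨ht.1, Nat.le_ceil t⟩).symm
  refine ⟨fun z => (s ⌈z.2⌉₊).1 z, fun k => ⟨(s k).1, fun x hx t ht => hΦ k x hx t ht⟩, ?_⟩
  intro y hy r hr T
  obtain ⟨k, hkT, hk1, hkr⟩ : ∃ k : ℕ, T ≤ k ∧ 1 ≤ k ∧ eps k < r / 2 := by
    refine ⟨⌈max T (2 * (2 * R + 1) / r)⌉₊ + 1, ?_, by omega, ?_⟩
    · have := Nat.le_ceil (max T (2 * (2 * R + 1) / r))
      have h2 := le_max_left T (2 * (2 * R + 1) / r)
      push_cast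
      linarith
    · have := Nat.le_ceil (max T (2 * (2 * R + 1) / r))
      have h2 := le_max_right T (2 * (2 * R + 1) / r)
      simp only [heps]
      push_cast
      rw [div_lt_iff₀ (by positivity)]
      have h3 : 2 * (2 * R + 1) / r ≤ (⌈max T (2 * (2 * R + 1) / r)⌉₊ : ℝ) := h2.trans this
      rw [div_le_iff₀ hr] at h3
      nlinarith
  have hcomp : IsCompact ((s k).1 '' (X ×ˢ Icc (0 : ℝ) k)) :=
    (hX.prod isCompact_Icc).image (s k).1.continuous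
  have hy1 : y ∉ interior ((s k).1 '' (X ×ˢ Icc (0 : ℝ) k)) := by
    rw [← (s k).1.image_interior, interior_prod_eq, interior_Icc]
    rintro ⟨⟨x, t⟩, ⟨hx, ht⟩, hxy⟩
    refine hy ⟨(x, t), ⟨hx, ht.1⟩, ?_⟩
    show (s ⌈t⌉₊).1 (x, t) = y
    rw [hΦ k x (interior_subset hx) t ⟨ht.1.le, ht.2.le⟩]
    exact hxy
  have hy2 : y ∈ closure ((s k).1 '' (X ×ˢ Icc (0 : ℝ) k))ᶜ := by
    rw [closure_compl]
    exact hy1
  obtain ⟨w, hw1, hw2⟩ := Metric.mem_closure_iff.1 hy2 (r / 2) (by positivity)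
  obtain ⟨a, ha1, ha2⟩ := (TopologicalSpace.denseRange_denseSeq (E × ℝ)).exists_mem_open
    (hcomp.isClosed.isOpen_compl.inter (isOpen_ball (x := y) (ε := r / 2)))
    ⟨w, hw1, by rw [mem_ball, dist_comm]; exact hw2⟩
  have hkl : k ≤ Nat.pair a k := Nat.right_le_pair a k
  have hql : q (Nat.pair a k) = TopologicalSpace.denseSeq (E × ℝ) a := by
    simp only [hq, Nat.unpair_pair]
  have hkl' : (k : ℝ) ≤ (Nat.pair a k : ℕ) := by exact_mod_cast hkl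
  have hk1' : (1 : ℝ) ≤ k := by exact_mod_cast hk1
  rw [mem_ball] at ha2
  rcases (hs (Nat.pair a k)).2.2 with ⟨x0, hx0, t, ht, h1⟩ | ⟨t, ht, h1⟩
  · rw [hql] at h1
    have htk : (k : ℝ) < t := by
      by_contra hcon
      rw [not_lt] at hcon
      refine ha1 ⟨(x0, t), ⟨hx0, ht.1, hcon⟩, ?_⟩
      rw [← h1]
      exact (hst k _ hkl x0 hx0 t ⟨ht.1, hcon⟩).symm
    obtain ⟨j, hj⟩ : ∃ j, ⌈t⌉₊ = j + 1 := by
      have : k < ⌈t⌉₊ := Nat.lt_ceil.2 htk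
      exact ⟨⌈t⌉₊ - 1, by omega⟩
    have hkj : k ≤ j := by
      have : k < ⌈t⌉₊ := Nat.lt_ceil.2 htk
      omega
    have hjt : (j : ℝ) < t := Nat.lt_ceil.1 (by omega)
    have htj : t ≤ j + 1 := by
      have := Nat.le_ceil t
      rw [hj] at this
      push_cast at this
      exact this
    refine ⟨t, hkT.trans htk.le, by linarith, fun x hx => ?_⟩
    show dist ((s ⌈t⌉₊).1 (x, t)) y < r
    have h2 := (hs j).2.1 t ⟨hjt.le, htj⟩ x (hXR hx) x0 (hXR hx0)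
    have h3 : (s (j + 1)).1 (x0, t) = TopologicalSpace.denseSeq (E × ℝ) a := by
      rw [← h1, ← hj]
      exact hΦ _ x0 hx0 t ht
    rw [h3] at h2
    rw [hj]
    have h4 := hepsm k j hkj
    have h5 := dist_triangle ((s (j + 1)).1 (x, t)) (TopologicalSpace.denseSeq (E × ℝ) a) y
    linarith
  · rw [hql] at h1
    have ht0 : (k : ℝ) ≤ t := hkl'.trans ht.1
    refine ⟨t, hkT.trans ht0, by linarith, fun x hx => ?_⟩
    show dist ((s ⌈t⌉₊).1 (x, t)) y < r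
    rw [hΦ (Nat.pair a k + 1) x hx t ⟨by linarith, by push_cast; exact ht.2⟩]
    have h2 := h1 x (hXR hx)
    have h4 := hepsm k _ hkl
    have h5 := dist_triangle ((s (Nat.pair a k + 1)).1 (x, t))
      (TopologicalSpace.denseSeq (E × ℝ) a) y
    linarith

end Pool.Agent.R515.CB.D
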